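import Pool.Statements.S01293
import Pool.Agent.K9h87.SubnormalJoin

set_option autoImplicit false
open Pool Pool.MP_4016fc_al

namespace Pool.Agent.S01293

/-- For every group G, if G is generated by its subnormal solvable subgroups (subnormal meaning a finite chain of successive normal subgroups up to G), then every finitely generated subgroup of G is solvable. -/
theorem result :
    ∀ (G : Type) [Group G],
      sSup {H : Subgroup G |
        (∃ n : ℕ, ∃ f : ℕ → Subgroup G, f 0 = H ∧ f n = ⊤ ∧
          ∀ i < n, f i ≤ f (i + 1) ∧ ((f i).subgroupOf (f (i + 1))).Normal) ∧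
        IsSolvable H} = ⊤ →
      ∀ K : Subgroup G, K.FG → IsSolvable K := by
  intro G _ h K hK
  exact Pool.Agent.K9h87.SubnormalJoin.locally_soluble h K hK

end Pool.Agent.S01293
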