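import Pool.Statements.S01673
import Pool.Agent.K9h81.CT.Fin

set_option autoImplicit false
open Pool Pool.MP_616471_al

namespace Pool.Agent.S01673

open Pool.Agent.K9h81.CT in
/-- a quasi-isometry from the graph to a Cayley graph, in the form used in the statement, gives the
data `QG` -/
theorem toQG (l : Set.Ioo (0 : ℝ) 1) (H : Type) [Group H] (S : Set H) (hf : S.Finite)
    (hS : Subgroup.closure S = ⊤) (φ : T10 → H) (K C : ℝ) (hK : 0 < K)
    (h1 : ∀ a b : T10, ((XX l).dist a b : ℝ) / K - C ≤ ((cay S).dist (φ a) (φ b) : ℝ) ∧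
      ((cay S).dist (φ a) (φ b) : ℝ) ≤ K * ((XX l).dist a b : ℝ) + C)
    (h2 : ∀ h : H, ∃ a : T10, ((cay S).dist (φ a) h : ℝ) ≤ C) : Nonempty (QG l) := by
  choose χ hχ using h2
  have hC : 0 ≤ C := by
    have := (h1 (fun _ => (0, 0), (0, 0)) (fun _ => (0, 0), (0, 0))).2
    simpa using this
  have hKC : 0 ≤ K * C := mul_nonneg hK.le hC
  refine ⟨{ H := H, grp := inferInstance, S := S, fin := hf, gen := hS, φ := φ, χ := χ, K := K,
            C := C + K * C, hK := hK.le, hC := by positivity, h1 := ?_, h2 := ?_, h3 := ?_ }⟩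
  · intro a b
    have := (h1 a b).2
    unfold dC dX
    linarith
  · intro a b
    have h3 := (h1 a b).1
    rw [sub_le_iff_le_add, div_le_iff₀ hK] at h3
    unfold dC dX
    linarith
  · intro h
    have := hχ h
    unfold dC
    linarith


/-- There is a connected locally finite graph with polynomial growth, finite asymptotic dimension, and uniformly coarsely transitive quasi-isometries, which is not quasi-isometric to the Cayley graph of any finitely generated group. -/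
theorem result :
    ∃ (V : Type) (G : SimpleGraph V),
      G.Connected ∧ (∀ v, (G.neighborSet v).Finite) ∧
      (∃ (v₀ : V) (c d : ℕ), ∀ r : ℕ,
          Set.ncard {w | G.dist v₀ w ≤ r} ≤ c * (r + 1) ^ d) ∧
      (∃ n : ℕ, ∀ R : ℕ, ∃ (ι : Type) (U : ι → Set V) (D : ℕ),
          (∀ i, ∀ x ∈ U i, ∀ y ∈ U i, G.dist x y ≤ D) ∧
          (∀ x, ∃ i, x ∈ U i) ∧
          ∀ x, {i | ∃ y ∈ U i, G.dist x y ≤ R}.Finite ∧
            Set.ncard {i | ∃ y ∈ U i, G.dist x y ≤ R} ≤ n + 1) ∧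
      (∃ K C : ℝ, 0 < K ∧ ∀ x y : V, ∃ f : V → V,
          (∀ a b : V, (G.dist a b : ℝ) / K - C ≤ (G.dist (f a) (f b) : ℝ) ∧
              (G.dist (f a) (f b) : ℝ) ≤ K * (G.dist a b : ℝ) + C) ∧
          (∀ z : V, ∃ a : V, (G.dist (f a) z : ℝ) ≤ C) ∧
          (G.dist (f x) y : ℝ) ≤ C) ∧
      ∀ (H : Type) [Group H] (S : Set H), S.Finite → Subgroup.closure S = ⊤ →
        ¬ ∃ (φ : V → H) (K C : ℝ), 0 < K ∧
          (∀ a b : V,
              (G.dist a b : ℝ) / K - C ≤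
                ((SimpleGraph.fromRel (fun g h : H => ∃ s ∈ S, h = g * s)).dist (φ a) (φ b) : ℝ) ∧
              ((SimpleGraph.fromRel (fun g h : H => ∃ s ∈ S, h = g * s)).dist (φ a) (φ b) : ℝ) ≤
                K * (G.dist a b : ℝ) + C) ∧
          (∀ h : H, ∃ a : V,
              ((SimpleGraph.fromRel (fun g h : H => ∃ s ∈ S, h = g * s)).dist (φ a) h : ℝ) ≤ C) := by
  obtain ⟨l, hl⟩ := Pool.Agent.K9h81.CT.exists_bad
  have hG := Pool.Agent.K9h81.CT.dat_genB l
  have hn := Pool.Agent.K9h81.CT.io_net l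
  have hcnt := Pool.Agent.K9h81.CT.io_cnt l
  have hconn := Pool.Agent.K9h81.CT.XX_conn l
  refine ⟨Pool.Agent.K9h81.CT.T10, Pool.Agent.K9h81.CT.XX l, hconn,
    Pool.Agent.K9h81.CT.loc_fin _ hcnt, ?_, ?_, ?_, ?_⟩
  · exact ⟨(fun _ => (0, 0), (0, 0)), _, _,
      Pool.Agent.K9h81.CT.growth _ hconn hcnt (fun _ => (0, 0), (0, 0))⟩
  · refine ⟨3 ^ 10 * 3 ^ 20, fun R => ?_⟩
    obtain ⟨U, B, h1, h2, h3⟩ := Pool.Agent.K9h81.CT.asdim _ hG hn hcnt R
    exact ⟨Pool.Agent.K9h81.CT.T10, U, B, h1, h2, h3⟩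
  · exact ⟨51, 44, by norm_num, fun x y => Pool.Agent.K9h81.CT.ctrans _ hG hn x y⟩
  · rintro H _ S hf hS ⟨φ, K, C, hK, h1, h2⟩
    exact hl.false (toQG l H S hf hS φ K C hK h1 h2).some

end Pool.Agent.S01673
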