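import Pool.Statements.S01913
import Pool.Agent.K9h67.QN.Main

set_option autoImplicit false
open Pool Pool.MP_73474e_al

namespace Pool.Agent.S01913

/-- There exist n ≥ 3, m ≥ 1 and a Nielsen move σ of the free group of rank n such that the quotient of Aut(F_n) by the normal closure of σ^m has infinitely many normal subgroups of finite index. -/
theorem result :
    ∃ n : ℕ, 3 ≤ n ∧ ∃ m : ℕ, 1 ≤ m ∧
      ∃ σ : MulAut (FreeGroup (Fin n)), ∃ i j : Fin n, i ≠ j ∧
        σ (FreeGroup.of i) = FreeGroup.of j * FreeGroup.of i ∧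
        (∀ k : Fin n, k ≠ i → σ (FreeGroup.of k) = FreeGroup.of k) ∧
        Set.Infinite
          {N : Subgroup (MulAut (FreeGroup (Fin n)) ⧸
              Subgroup.normalClosure ({σ ^ m} : Set (MulAut (FreeGroup (Fin n))))) |
            N.Normal ∧ N.FiniteIndex} :=
  ⟨3, le_rfl, 8, by norm_num, Pool.Agent.K9h67.QN.sig, 0, 1, by decide,
    Pool.Agent.K9h67.QN.sig_zero, fun _ hk => Pool.Agent.K9h67.QN.sig_ne hk,
    Pool.Agent.K9h67.QN.main⟩

end Pool.Agent.S01913
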