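import Pool.Statements.S04241
import Pool.Agent.K9h48.UI.Unif
import Pool.Agent.K9h48.UI.Count
import Pool.Agent.K9h48.UI.Comb
-- import your own Pool.Agent.* helpers here

set_option autoImplicit false
open Pool Pool.MP_2fa38d_an

namespace Pool.Agent.S04241

open Complex Filter Topology Set Metric Pool.Agent.K9h48.UI

theorem iter_lin {G : ℂ → ℂ} (hG : Differentiable ℂ G) (a : ℂ) (k : ℕ) :
    iteratedDeriv k (fun z => (z - a) * G z) =
      fun z => (z - a) * iteratedDeriv k G z + k * iteratedDeriv (k - 1) G z := by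
  induction k with
  | zero => funext z; simp
  | succ k ih =>
    rw [iteratedDeriv_succ, ih]
    funext z
    have h1 : HasDerivAt (iteratedDeriv k G) (iteratedDeriv (k + 1) G z) z := by
      rw [iteratedDeriv_succ]
      exact (diff_iter hG k z).hasDerivAt
    have h2 : HasDerivAt (fun z => (k : ℂ) * iteratedDeriv (k - 1) G z)
        ((k : ℂ) * iteratedDeriv k G z) z := by
      rcases k with _ | k
      · simpa using hasDerivAt_const z (0 : ℂ)
      · have h3 : HasDerivAt (iteratedDeriv k G) (iteratedDeriv (k + 1) G z) z := by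
          rw [iteratedDeriv_succ]
          exact (diff_iter hG k z).hasDerivAt
        exact h3.const_mul _
    have h4 : HasDerivAt (fun z : ℂ => z - a) 1 z := (hasDerivAt_id z).sub_const a
    have h5 : HasDerivAt (fun z => (z - a) * iteratedDeriv k G z + (k : ℂ) * iteratedDeriv (k - 1) G z)
        (1 * iteratedDeriv k G z + (z - a) * iteratedDeriv (k + 1) G z + (k : ℂ) * iteratedDeriv k G z) z :=
      (h4.mul h1).add h2
    rw [h5.deriv, Nat.add_sub_cancel]
    push_cast
    ring

/-- For every sequence of distinct points a_n tending to infinity with multiplicities p_n, contained in the zero set of a nonzero F in the class and universal interpolating, some nonzero f in the class vanishes on it with ∣f^(p_n)(a_n)∣/p_n! ≥ ε exp(-c ρ(a_n)). -/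
theorem result :
  ∀ (ρ : ℂ → ℝ), ρ = (fun z : ℂ => |z.im| + Real.log (1 + ‖z‖ ^ 2)) →
  ∀ (E : (ℂ → ℂ) → Prop),
    E = (fun f : ℂ → ℂ => Differentiable ℂ f ∧
      ∃ A > (0:ℝ), ∃ B > (0:ℝ), ∀ z : ℂ, ‖f z‖ ≤ A * Real.exp (B * ρ z)) →
  ∀ (a : ℕ → ℂ) (p : ℕ → ℕ),
    Function.Injective a →
    Filter.Tendsto (fun n => ‖a n‖) Filter.atTop Filter.atTop →
    (∀ n, 1 ≤ p n) →
    (∃ F : ℂ → ℂ, E F ∧ (∃ z, F z ≠ 0) ∧
      ∀ n, ∀ k < p n, iteratedDeriv k F (a n) = 0) →
    (∀ lam : ℕ → ℕ → ℂ,
      (∃ A > (0:ℝ), ∃ B > (0:ℝ), ∀ n, ∀ κ < p n,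
        ‖lam n κ‖ ≤ A * Real.exp (B * ρ (a n))) →
      ∃ g : ℂ → ℂ, E g ∧ ∀ n, ∀ κ < p n,
        iteratedDeriv κ g (a n) / (κ.factorial : ℂ) = lam n κ) →
    ∃ f : ℂ → ℂ, E f ∧ (∃ z, f z ≠ 0) ∧
      (∀ n, ∀ k < p n, iteratedDeriv k f (a n) = 0) ∧
      ∃ ε > (0:ℝ), ∃ c > (0:ℝ), ∀ n,
        ε * Real.exp (-(c * ρ (a n))) ≤
          ‖iteratedDeriv (p n) f (a n)‖ / ((p n).factorial : ℝ) := by
  intro ρ hρ E hE a p ha _ hp hF hint
  classical
  obtain rfl : ρ = rho := by rw [hρ]; rfl
  clear hρ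
  subst hE
  obtain ⟨F, ⟨hFd, A, hA, B, hB, hFb⟩, ⟨z0, hz0⟩, hFz⟩ := hF
  have hF0 : ∀ n, F (a n) = 0 := by
    intro n
    have := hFz n 0 (hp n)
    simpa [iteratedDeriv_zero] using this
  have hsum := summable_pts hFd hA hB hFb hz0 a ha hF0
  obtain ⟨N, hN⟩ := uniform_fns continuous_rho rho_nonneg a p (by
    intro μ hμ
    obtain ⟨C, hC⟩ := hμ
    obtain ⟨g, ⟨hg1, hg2⟩, hg3⟩ := hint (fun n κ => if κ = p n - 1 then μ n else 0)
      ⟨|C| + 1, by positivity, 1, one_pos, by
        intro n κ _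
        have h1 := Real.one_le_exp (show 0 ≤ 1 * rho (a n) by
          rw [one_mul]; exact rho_nonneg _)
        have h2 : ‖if κ = p n - 1 then μ n else 0‖ ≤ |C| + 1 := by
          split_ifs
          · have := hC n
            have := le_abs_self C
            linarith
          · rw [norm_zero]; positivity
        nlinarith [abs_nonneg C]⟩
    refine ⟨g, hg1, hg2, ?_⟩
    intro n κ hκ
    have h1 := hg3 n κ hκ
    have h2 : (κ.factorial : ℂ) ≠ 0 := by exact_mod_cast κ.factorial_ne_zero
    rw [div_eq_iff h2] at h1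
    rw [h1]
    split_ifs <;> ring)
  choose G hG1 hG2 hG3 using hN
  set s : ℕ → ℝ := fun n => Real.exp (-(2 * rho (a n))) with hs
  set b : ℕ → ℝ := fun n => Real.exp (-(3 * rho (a n))) with hb
  have hs0 : ∀ n, 0 < s n := fun n => Real.exp_pos _
  have hb0 : ∀ n, 0 < b n := fun n => Real.exp_pos _
  set S : ℝ := ∑' n, s n with hS
  have hS0 : 0 ≤ S := tsum_nonneg fun n => (hs0 n).le
  have hs1 : ∀ n, s n ≤ 1 := by
    intro n
    rw [hs]
    simp only [Real.exp_le_one_iff]
    have := rho_nonneg (a n)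
    linarith
  set h : ℕ → ℂ → ℂ := fun m z => (z - a m) * G m z with hh
  have hhd : ∀ m, Differentiable ℂ (h m) := fun m =>
    (differentiable_id.sub_const (a m)).mul (hG1 m)
  set W : ℂ → ℝ := fun z => 4 * N * Real.exp ((N + 1) * rho z) with hW
  have hWc : Continuous W := by
    have := continuous_rho
    fun_prop
  have hW0 : ∀ z, 0 ≤ W z := fun z => by positivity
  have hhb : ∀ m z, b m * ‖h m z‖ ≤ s m * W z := by
    intro m z
    have h1 : ‖h m z‖ ≤ (2 * Real.exp (rho z)) * (2 * Real.exp (rho (a m))) *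
        (N * Real.exp (N * rho z)) := by
      simp only [hh]
      rw [norm_mul]
      apply mul_le_mul _ (hG2 m z) (norm_nonneg _) (by positivity)
      have h2 := norm_sub_le z (a m)
      have h3 := one_add_le z
      have h4 := one_add_le (a m)
      have h5 := norm_nonneg z
      have h6 := norm_nonneg (a m)
      calc ‖z - a m‖ ≤ (1 + ‖z‖) * (1 + ‖a m‖) := by nlinarith
        _ ≤ _ := by gcongr
    calc b m * ‖h m z‖ ≤ b m * ((2 * Real.exp (rho z)) * (2 * Real.exp (rho (a m))) *
        (N * Real.exp (N * rho z))) := by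
          apply mul_le_mul_of_nonneg_left h1 (hb0 m).le
      _ = s m * W z := by
          simp only [hs, hb, hW]
          have e1 : Real.exp (-(2 * rho (a m))) = Real.exp (-(3 * rho (a m))) * Real.exp (rho (a m)) := by
            rw [← Real.exp_add]; ring_nf
          have e2 : Real.exp ((N + 1) * rho z) = Real.exp (rho z) * Real.exp (N * rho z) := by
            rw [← Real.exp_add]; ring_nf
          rw [e1, e2]; ring
  -- derivative data
  have hlow : ∀ m n, ∀ κ < p n, iteratedDeriv κ (h m) (a n) = 0 := by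
    intro m n κ hκ
    rw [hh]
    simp only
    rw [iter_lin (hG1 m) (a m) κ]
    simp only
    by_cases hmn : n = m
    · subst hmn
      rw [sub_self, zero_mul, zero_add]
      rcases κ with _ | κ
      · simp
      · rw [Nat.add_sub_cancel, hG3 n n κ (by omega), if_neg (by omega), mul_zero]
    · have h1 : ∀ κ' < p n, iteratedDeriv κ' (G m) (a n) = 0 := by
        intro κ' hκ'
        rw [hG3 m n κ' hκ', Pi.single_eq_of_ne hmn, mul_zero]
        simp
      rw [h1 κ hκ, h1 (κ - 1) (by omega)]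
      simp
  have htop : ∀ n, iteratedDeriv (p n) (h n) (a n) = ((p n).factorial : ℂ) := by
    intro n
    rw [hh]
    simp only
    rw [iter_lin (hG1 n) (a n) (p n)]
    simp only
    have hpn := hp n
    rw [sub_self, zero_mul, zero_add, hG3 n n (p n - 1) (by omega), if_pos rfl, Pi.single_eq_same,
      mul_one]
    have h1 : p n = (p n - 1) + 1 := by omega
    have h2 : (p n).factorial = p n * (p n - 1).factorial := by
      conv_lhs => rw [h1]
      rw [Nat.factorial_succ]
      congr 1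
      omega
    rw [h2]
    push_cast
    ring
  set c : ℕ → ℕ → ℂ := fun n m => (b m : ℂ) * iteratedDeriv (p n) (h m) (a n) / ((p n).factorial : ℂ)
    with hc
  have hcnn : ∀ n, ‖c n n‖ = b n := by
    intro n
    have h2 : ((p n).factorial : ℂ) ≠ 0 := by exact_mod_cast (p n).factorial_ne_zero
    simp only [hc]
    rw [htop n, mul_div_assoc, div_self h2, mul_one, Complex.norm_real,
      Real.norm_of_nonneg (hb0 n).le]
  have hMn : ∀ n, ∃ M : ℝ, 0 ≤ M ∧ ∀ z ∈ sphere (a n) 1, W z ≤ M := by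
    intro n
    obtain ⟨M, hM⟩ := (isCompact_sphere (a n) 1).exists_bound_of_continuousOn hWc.continuousOn
    refine ⟨|M|, abs_nonneg _, fun z hz => ?_⟩
    exact ((le_abs_self _).trans (hM z hz)).trans (le_abs_self _)
  choose M hM0 hM using hMn
  have hcv : ∀ n m, ‖c n m‖ ≤ s m * M n := by
    intro n m
    have hf0 : (0 : ℝ) < ((p n).factorial : ℝ) := by exact_mod_cast (p n).factorial_pos
    have h1 : ‖iteratedDeriv (p n) (h m) (a n)‖ ≤ (p n).factorial * (s m * M n / b m) / 1 ^ (p n) := by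
      apply Complex.norm_iteratedDeriv_le_of_forall_mem_sphere_norm_le (p n) one_pos
        (hhd m).diffContOnCl
      intro z hz
      rw [le_div_iff₀ (hb0 m), mul_comm]
      refine (hhb m z).trans ?_
      exact mul_le_mul_of_nonneg_left (hM n z hz) (hs0 m).le
    simp only [hc]
    rw [norm_div, norm_mul, Complex.norm_real, Real.norm_of_nonneg (hb0 m).le, Complex.norm_natCast,
      div_le_iff₀ hf0]
    rw [one_pow, div_one] at h1
    calc b m * ‖iteratedDeriv (p n) (h m) (a n)‖
        ≤ b m * ((p n).factorial * (s m * M n / b m)) := mul_le_mul_of_nonneg_left h1 (hb0 m).le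
      _ = s m * M n * (p n).factorial := by
          have := (hb0 m).ne'
          field_simp
  -- the integers
  set K : ℕ → ℕ := fun n => ⌈(S + 1) / s n⌉₊ with hK
  have hK1 : ∀ n, (S + 1) / s n ≤ K n := fun n => Nat.le_ceil _
  have hKpos : ∀ n, 0 < K n := by
    intro n
    have h1 : 0 < (S + 1) / s n := div_pos (by linarith) (hs0 n)
    exact Nat.ceil_pos.2 h1
  have hK2 : ∀ n, 1 / (K n : ℝ) ≤ s n / (S + 1) := by
    intro n
    have h1 : (0 : ℝ) < K n := by exact_mod_cast hKpos n
    have h2 := hK1 n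
    rw [div_le_iff₀ (hs0 n)] at h2
    rw [div_le_div_iff₀ h1 (by linarith)]
    linarith
  have hK3 : ∀ n, (K n : ℝ) ≤ (S + 2) / s n := by
    intro n
    have h1 : (K n : ℝ) < (S + 1) / s n + 1 :=
      Nat.ceil_lt_add_one (div_nonneg (by linarith) (hs0 n).le)
    have h2 : 1 ≤ 1 / s n := by
      rw [le_div_iff₀ (hs0 n), one_mul]; exact hs1 n
    have h3 : (S + 2) / s n = (S + 1) / s n + 1 / s n := by rw [← add_div]; ring_nf
    linarith
  have hKs : Summable (fun n => 1 / (K n : ℝ)) :=
    Summable.of_nonneg_of_le (fun n => by positivity) hK2 (hsum.div_const _)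
  have hKt : ∑' n, 1 / (K n : ℝ) < 1 := by
    have h1 : ∑' n, 1 / (K n : ℝ) ≤ ∑' n, s n / (S + 1) := hKs.tsum_le_tsum hK2 (hsum.div_const _)
    rw [tsum_div_const] at h1
    refine h1.trans_lt ?_
    rw [div_lt_one (by linarith)]
    linarith
  obtain ⟨θ, hθ1, hθ2⟩ := infinite_choice K hKpos hKs hKt c (fun n m => s m * M n)
    (fun n => hsum.mul_right _) hcv
  -- the function
  have hterm : ∀ m z, ‖((θ m * b m : ℝ) : ℂ) * h m z‖ ≤ s m * W z := by
    intro m z
    rw [norm_mul, Complex.norm_real, Real.norm_of_nonneg (mul_nonneg (hθ1 m).1 (hb0 m).le), mul_assoc]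
    calc θ m * (b m * ‖h m z‖) ≤ 1 * (b m * ‖h m z‖) :=
          mul_le_mul_of_nonneg_right (hθ1 m).2 (mul_nonneg (hb0 m).le (norm_nonneg _))
      _ ≤ s m * W z := by rw [one_mul]; exact hhb m z
  obtain ⟨hfd, hfb, hfk⟩ := sum_lemma (F := fun m z => ((θ m * b m : ℝ) : ℂ) * h m z) hWc hsum
    (fun m => (hhd m).const_mul _) hterm
  have hder : ∀ m k z, iteratedDeriv k (fun z => ((θ m * b m : ℝ) : ℂ) * h m z) z =
      ((θ m * b m : ℝ) : ℂ) * iteratedDeriv k (h m) z := by
    intro m k z
    rw [iteratedDeriv_const_mul_field]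
  have hlb : ∀ n, Real.exp (-(5 * rho (a n))) / (2 * (S + 2)) ≤
      ‖iteratedDeriv (p n) (fun z => ∑' m, ((θ m * b m : ℝ) : ℂ) * h m z) (a n)‖ /
        ((p n).factorial : ℝ) := by
    intro n
    have hf0 : (0 : ℝ) < ((p n).factorial : ℝ) := by exact_mod_cast (p n).factorial_pos
    have hf1 : ((p n).factorial : ℂ) ≠ 0 := by exact_mod_cast (p n).factorial_ne_zero
    have h1 := (hfk (p n) (a n)).tsum_eq
    have h2 : ∑' m, iteratedDeriv (p n) (fun z => ((θ m * b m : ℝ) : ℂ) * h m z) (a n) =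
        ((p n).factorial : ℂ) * ∑' m, (θ m : ℂ) * c n m := by
      rw [← tsum_mul_left]
      apply tsum_congr
      intro m
      rw [hder]
      simp only [hc]
      push_cast
      field_simp
    rw [← h1, h2, norm_mul, Complex.norm_natCast, mul_div_assoc, mul_div_cancel₀ _ hf0.ne']
    refine le_trans ?_ (hθ2 n)
    rw [hcnn n]
    have hKp : (0 : ℝ) < K n := by exact_mod_cast hKpos n
    rw [div_le_div_iff₀ (by linarith) (by linarith)]
    have h3 := hK3 n
    rw [le_div_iff₀ (hs0 n)] at h3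
    have h4 : Real.exp (-(5 * rho (a n))) = b n * s n := by
      simp only [hb, hs]
      rw [← Real.exp_add]; ring_nf
    rw [h4]
    have h5 := hb0 n
    nlinarith [mul_le_mul_of_nonneg_left h3 h5.le]
  refine ⟨fun z => ∑' m, ((θ m * b m : ℝ) : ℂ) * h m z, ⟨hfd, S * (4 * N) + 1, by positivity,
    (N + 1 : ℝ), by positivity, ?_⟩, ?_, ?_, ?_⟩
  · intro z
    refine (hfb z).trans ?_
    simp only [hW]
    rw [← mul_assoc]
    apply mul_le_mul_of_nonneg_right _ (Real.exp_pos _).le
    linarith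
  · by_contra hcon
    push Not at hcon
    have h1 : (fun z => ∑' m, ((θ m * b m : ℝ) : ℂ) * h m z) = fun _ => 0 := funext hcon
    have h2 := hlb 0
    rw [h1] at h2
    have h3 : iteratedDeriv (p 0) (fun _ : ℂ => (0 : ℂ)) (a 0) = 0 := by
      rw [iteratedDeriv_const]
      split_ifs <;> rfl
    rw [h3, norm_zero, zero_div] at h2
    have h4 : 0 < Real.exp (-(5 * rho (a 0))) / (2 * (S + 2)) := by positivity
    linarith
  · intro n k hk
    have h1 := (hfk k (a n)).tsum_eq
    rw [← h1]
    have h2 : ∀ m, iteratedDeriv k (fun z => ((θ m * b m : ℝ) : ℂ) * h m z) (a n) = 0 := by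
      intro m
      rw [hder, hlow m n k hk, mul_zero]
    simp only [h2]
    exact tsum_zero
  · refine ⟨1 / (2 * (S + 2)), by positivity, 5, by norm_num, ?_⟩
    intro n
    have h1 := hlb n
    rw [one_div, inv_mul_eq_div]
    exact h1

end Pool.Agent.S04241
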