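import Pool.Statements.S04994
import Pool.Agent.K9h84.CQ.Quot

set_option autoImplicit false
open scoped ZeroAtInfty
open Pool Pool.MP_6f388c_an

namespace Pool.Agent.S04994

/-- The negation of the preceding statement: For every countable compact Hausdorff K and every real Banach space X that is a quotient of C(K), each infinite-dimensional closed subspace of X contains an isomorphic copy of c_0. -/
theorem result :
    ¬ (∀ (K : Type) [TopologicalSpace K] [CompactSpace K] [T2Space K] [Countable K]
      (X : Type) [NormedAddCommGroup X] [NormedSpace ℝ X] [CompleteSpace X],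
      (∃ T : C(K, ℝ) →L[ℝ] X, Function.Surjective T) →
      ∀ Y : Submodule ℝ X, IsClosed (Y : Set X) → ¬ FiniteDimensional ℝ Y →
        ∃ S : C₀(ℕ, ℝ) →L[ℝ] X, (∀ f, S f ∈ Y) ∧
          ∃ c : ℝ, 0 < c ∧ ∀ f, c * ‖f‖ ≤ ‖S f‖) :=
  Pool.Agent.K9h84.CQ.main

end Pool.Agent.S04994
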