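import Pool.Statements.S09776

/-!
# The Katchalski–Lewis conjecture on partial transversals is false

Eight pairwise disjoint translates of the square `[0, 12] ^ 2`, with lower left corners
`(-17,-5), (8,6), (-50,2), (-2,-7), (-8,8), (11,-7), (24,-7), (21,6)`: every three of them are met
by a line (thirteen lines suffice), but every line misses at least three of them.

For the last assertion let `ν` be a normal vector of the line.  Two translates with corners `a, b`
can be met by the same line only if `|ν · (a - b)| ≤ 12 (|ν₀| + |ν₁|)`.  For each direction `ν` there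
are three disjoint pairs of translates which violate this inequality.
-/

set_option autoImplicit false
open Pool Pool.MP_814928_co

namespace Pool.Agent.S09776

/-- First coordinates of the corners. -/
def cx : Fin 8 → ℤ := ![-17, 8, -50, -2, -8, 11, 24, 21]
/-- Second coordinates of the corners. -/
def cy : Fin 8 → ℤ := ![-5, 6, 2, -7, 8, -7, -7, 6]

/-- The sets of translates met by the thirteen lines. -/
def hs : Fin 13 → Finset (Fin 8) := ![{0, 2, 3, 5, 6}, {1, 4, 5, 6, 7}, {0, 1, 3, 4, 7},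
  {0, 1, 2, 4, 7}, {2, 3, 4, 5, 6}, {0, 1, 3, 5, 7}, {0, 1, 2, 5, 6}, {0, 3, 4, 5, 6},
  {0, 3, 5, 6, 7}, {0, 1, 2, 3, 7}, {1, 3, 4, 5, 6}, {1, 2, 4, 6, 7}, {0, 2, 3, 5, 7}]
/-- Base points and directions of the lines. -/
def px : Fin 13 → ℤ := ![0, 1, 0, -3, 2, 1, -5, 1, 1, -2, 0, -3, -11]
def py : Fin 13 → ℤ := ![5, 16, 6, 9, 6, -2, 7, 5, -3, 5, 10, 9, 4]
def vx : Fin 13 → ℤ := ![1, 2, -2, 5, 5, 2, -13, -3, 3, 12, -2, 8, 22]
def vy : Fin 13 → ℤ := ![0, -1, -1, 1, -1, 1, 1, 1, 1, 1, 1, -1, 1]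
/-- Twice the parameters of points of the lines in the translates. -/
def sv : Fin 13 → Fin 8 → ℤ := ![![-34, 0, -100, -4, 0, 22, 48, 0],
  ![0, 8, 0, 0, -8, 22, 24, 20],
  ![6, -20, 0, 2, -4, 0, 0, -24],
  ![-4, 6, -14, 0, -2, 0, 0, 10],
  ![0, 0, -16, 2, -4, 4, 10, 0],
  ![-6, 16, 0, -2, 0, 10, 0, 20],
  ![0, -2, 6, 0, 0, -4, -6, 0],
  ![4, 0, 0, -6, 6, -14, -22, 0],
  ![-4, 0, 0, -2, 0, 8, 16, 18],
  ![-2, 2, -6, 0, 0, 0, 0, 4],
  ![0, -8, 0, -10, -4, -22, -34, 0],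
  ![0, 4, -10, 0, 0, 0, 8, 6],
  ![0, 0, -3, 1, 0, 2, 0, 4]]

lemma table_hits : ∀ l : Fin 13, ∀ i : Fin 8, i ∈ hs l →
    2 * cx i ≤ 2 * px l + sv l i * vx l ∧ 2 * px l + sv l i * vx l ≤ 2 * cx i + 24 ∧
    2 * cy i ≤ 2 * py l + sv l i * vy l ∧ 2 * py l + sv l i * vy l ≤ 2 * cy i + 24 := by
  decide

set_option maxRecDepth 100000 in
lemma table_cover : ∀ N : Finset (Fin 8), N.card ≤ 3 → ∃ l : Fin 13, N ⊆ hs l := by
  decide

lemma table_disj : ∀ i j : Fin 8, i ≠ j →
    cx i + 12 < cx j ∨ cx j + 12 < cx i ∨ cy i + 12 < cy j ∨ cy j + 12 < cy i := by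
  decide

set_option maxRecDepth 100000 in
lemma match1 : ∀ N : Finset (Fin 8), N.card ≤ 2 →
    (0 ∉ N ∧ 1 ∉ N) ∨ (2 ∉ N ∧ 4 ∉ N) ∨ (3 ∉ N ∧ 7 ∉ N) := by
  decide

set_option maxRecDepth 100000 in
lemma match2 : ∀ N : Finset (Fin 8), N.card ≤ 2 →
    (0 ∉ N ∧ 4 ∉ N) ∨ (1 ∉ N ∧ 3 ∉ N) ∨ (5 ∉ N ∧ 7 ∉ N) := by
  decide

set_option maxRecDepth 100000 in
lemma match3 : ∀ N : Finset (Fin 8), N.card ≤ 2 →
    (1 ∉ N ∧ 5 ∉ N) ∨ (3 ∉ N ∧ 4 ∉ N) ∨ (6 ∉ N ∧ 7 ∉ N) := by
  decide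

set_option maxRecDepth 100000 in
lemma match4 : ∀ N : Finset (Fin 8), N.card ≤ 2 →
    (1 ∉ N ∧ 6 ∉ N) ∨ (2 ∉ N ∧ 3 ∉ N) ∨ (4 ∉ N ∧ 5 ∉ N) := by
  decide

/-- The line with normal vector `(a, b)` and offset `c` meets the square with corner `i`. -/
def Hit (a b c : ℝ) (i : Fin 8) : Prop :=
  ∃ x y : ℝ, (cx i : ℝ) ≤ x ∧ x ≤ cx i + 12 ∧ (cy i : ℝ) ≤ y ∧ y ≤ cy i + 12 ∧
    a * x + b * y = c

lemma Hit.neg {a b c : ℝ} {i : Fin 8} (h : Hit a b c i) : Hit (-a) (-b) (-c) i := by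
  obtain ⟨x, y, h1, h2, h3, h4, h5⟩ := h
  exact ⟨x, y, h1, h2, h3, h4, by rw [← h5]; ring⟩

lemma incomp {a b c : ℝ} {i j : Fin 8} (hi : Hit a b c i) (hj : Hit a b c j) :
    |a * ((cx i : ℝ) - cx j) + b * ((cy i : ℝ) - cy j)| ≤ 12 * (|a| + |b|) := by
  obtain ⟨x, y, h1, h2, h3, h4, h5⟩ := hi
  obtain ⟨x', y', h1', h2', h3', h4', h5'⟩ := hj
  have e : a * ((cx i : ℝ) - cx j) + b * ((cy i : ℝ) - cy j) =
      a * (((cx i : ℝ) - cx j) - (x - x')) + b * (((cy i : ℝ) - cy j) - (y - y')) := by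
    have : a * (x - x') + b * (y - y') = 0 := by linear_combination h5 - h5'
    linear_combination this
  rw [e]
  have hx : |((cx i : ℝ) - cx j) - (x - x')| ≤ 12 := by
    rw [abs_le]; constructor <;> linarith
  have hy : |((cy i : ℝ) - cy j) - (y - y')| ≤ 12 := by
    rw [abs_le]; constructor <;> linarith
  calc |a * (((cx i : ℝ) - cx j) - (x - x')) + b * (((cy i : ℝ) - cy j) - (y - y'))|
      ≤ |a * (((cx i : ℝ) - cx j) - (x - x'))| + |b * (((cy i : ℝ) - cy j) - (y - y'))| :=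
        abs_add_le _ _
    _ = |a| * |((cx i : ℝ) - cx j) - (x - x')| + |b| * |((cy i : ℝ) - cy j) - (y - y')| := by
        rw [abs_mul, abs_mul]
    _ ≤ |a| * 12 + |b| * 12 :=
        add_le_add (mul_le_mul_of_nonneg_left hx (abs_nonneg a))
          (mul_le_mul_of_nonneg_left hy (abs_nonneg b))
    _ = 12 * (|a| + |b|) := by ring

/-- No line meets all the squares but at most two; normal vectors in the closed upper half
plane. -/
lemma main_upper (a b c : ℝ) (hab : a ≠ 0 ∨ b ≠ 0) (hb : 0 ≤ b) (N : Finset (Fin 8))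
    (hN : N.card ≤ 2) (h : ∀ i, i ∉ N → Hit a b c i) : False := by
  rcases le_total 0 a with ha | ha
  · have hpos : 0 < a + b := by
      rcases hab with h0 | h0
      · have := lt_of_le_of_ne ha (Ne.symm h0)
        linarith
      · have := lt_of_le_of_ne hb (Ne.symm h0)
        linarith
    rcases le_total b (4 * a) with hc | hc
    · rcases match1 N hN with ⟨h1, h2⟩ | ⟨h1, h2⟩ | ⟨h1, h2⟩ <;>
      · have h3 := incomp (h _ h1) (h _ h2)
        rw [abs_of_nonneg ha, abs_of_nonneg hb] at h3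
        have h4 := (abs_le.mp h3).1
        have h5 := (abs_le.mp h3).2
        simp [cx, cy] at h4 h5
        linarith
    · rcases match2 N hN with ⟨h1, h2⟩ | ⟨h1, h2⟩ | ⟨h1, h2⟩ <;>
      · have h3 := incomp (h _ h1) (h _ h2)
        rw [abs_of_nonneg ha, abs_of_nonneg hb] at h3
        have h4 := (abs_le.mp h3).1
        have h5 := (abs_le.mp h3).2
        simp [cx, cy] at h4 h5
        linarith
  · have hpos : 0 < -a + b := by
      rcases hab with h0 | h0
      · have := lt_of_le_of_ne ha h0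
        linarith
      · have := lt_of_le_of_ne hb (Ne.symm h0)
        linarith
    rcases le_total b (10 * (-a)) with hc | hc
    · rcases match4 N hN with ⟨h1, h2⟩ | ⟨h1, h2⟩ | ⟨h1, h2⟩ <;>
      · have h3 := incomp (h _ h1) (h _ h2)
        rw [abs_of_nonpos ha, abs_of_nonneg hb] at h3
        have h4 := (abs_le.mp h3).1
        have h5 := (abs_le.mp h3).2
        simp [cx, cy] at h4 h5
        linarith
    · rcases match3 N hN with ⟨h1, h2⟩ | ⟨h1, h2⟩ | ⟨h1, h2⟩ <;>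
      · have h3 := incomp (h _ h1) (h _ h2)
        rw [abs_of_nonpos ha, abs_of_nonneg hb] at h3
        have h4 := (abs_le.mp h3).1
        have h5 := (abs_le.mp h3).2
        simp [cx, cy] at h4 h5
        linarith

lemma main_all (a b c : ℝ) (hab : a ≠ 0 ∨ b ≠ 0) (N : Finset (Fin 8))
    (hN : N.card ≤ 2) (h : ∀ i, i ∉ N → Hit a b c i) : False := by
  rcases le_total 0 b with hb | hb
  · exact main_upper a b c hab hb N hN h
  · refine main_upper (-a) (-b) (-c) ?_ (by linarith) N hN (fun i hi => (h i hi).neg)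
    rcases hab with h0 | h0
    · exact Or.inl (neg_ne_zero.mpr h0)
    · exact Or.inr (neg_ne_zero.mpr h0)

/-- The corners. -/
noncomputable def pt (i : Fin 8) : EuclideanSpace ℝ (Fin 2) := !₂[(cx i : ℝ), (cy i : ℝ)]

lemma pt_zero (i : Fin 8) : pt i 0 = cx i := by simp [pt]
lemma pt_one (i : Fin 8) : pt i 1 = cy i := by simp [pt]

lemma pt_inj : Function.Injective pt := by
  intro i j hij
  by_contra hne
  have h0 : (cx i : ℝ) = cx j := by rw [← pt_zero, ← pt_zero, hij]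
  have h1 : (cy i : ℝ) = cy j := by rw [← pt_one, ← pt_one, hij]
  have h0' : cx i = cx j := by exact_mod_cast h0
  have h1' : cy i = cy j := by exact_mod_cast h1
  rcases table_disj i j hne with h | h | h | h <;> omega

/-- The square. -/
def K : Set (EuclideanSpace ℝ (Fin 2)) := {z | ∀ k, 0 ≤ z k ∧ z k ≤ 12}

lemma K_convex : Convex ℝ K := by
  intro x hx y hy s t hs ht hst k
  have h1 := hx k
  have h2 := hy k
  have e : (s • x + t • y) k = s * x k + t * y k := by simp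
  rw [e]
  constructor
  · have := mul_nonneg hs h1.1
    have := mul_nonneg ht h2.1
    linarith
  · have := mul_le_mul_of_nonneg_left h1.2 hs
    have := mul_le_mul_of_nonneg_left h2.2 ht
    have e2 : s * 12 + t * 12 = 12 := by rw [← add_mul, hst, one_mul]
    linarith

lemma K_compact : IsCompact K := by
  have h : K = (EuclideanSpace.equiv (Fin 2) ℝ) ⁻¹' (Set.Icc (fun _ => (0 : ℝ)) (fun _ => 12)) := by
    ext z
    simp only [K, Set.mem_ofPred_eq, Set.mem_preimage, Set.mem_Icc, Pi.le_def]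
    constructor
    · intro h
      exact ⟨fun k => (h k).1, fun k => (h k).2⟩
    · intro h k
      exact ⟨h.1 k, h.2 k⟩
  rw [h]
  exact (EuclideanSpace.equiv (Fin 2) ℝ).toHomeomorph.isCompact_preimage.mpr isCompact_Icc

lemma mem_translate (i : Fin 8) (z : EuclideanSpace ℝ (Fin 2)) :
    z ∈ (fun x => pt i + x) '' K ↔
      (cx i : ℝ) ≤ z 0 ∧ z 0 ≤ cx i + 12 ∧ (cy i : ℝ) ≤ z 1 ∧ z 1 ≤ cy i + 12 := by
  constructor
  · rintro ⟨x, hx, rfl⟩
    have h0 := hx 0
    have h1 := hx 1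
    have e0 : (pt i + x) 0 = cx i + x 0 := by rw [PiLp.add_apply, pt_zero]
    have e1 : (pt i + x) 1 = cy i + x 1 := by rw [PiLp.add_apply, pt_one]
    simp only [e0, e1]
    refine ⟨?_, ?_, ?_, ?_⟩ <;> linarith [h0.1, h0.2, h1.1, h1.2]
  · rintro ⟨h1, h2, h3, h4⟩
    refine ⟨z - pt i, ?_, by simp⟩
    intro k
    have e0 : (z - pt i) 0 = z 0 - cx i := by rw [PiLp.sub_apply, pt_zero]
    have e1 : (z - pt i) 1 = z 1 - cy i := by rw [PiLp.sub_apply, pt_one]
    fin_cases k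
    · change 0 ≤ (z - pt i) 0 ∧ (z - pt i) 0 ≤ 12
      rw [e0]
      constructor <;> linarith
    · change 0 ≤ (z - pt i) 1 ∧ (z - pt i) 1 ≤ 12
      rw [e1]
      constructor <;> linarith

/-- The family of the eight corners. -/
noncomputable def T : Finset (EuclideanSpace ℝ (Fin 2)) := Finset.univ.map ⟨pt, pt_inj⟩

lemma mem_T {z : EuclideanSpace ℝ (Fin 2)} : z ∈ T ↔ ∃ i, pt i = z := by
  simp [T]

lemma T_disjoint : ∀ a ∈ T, ∀ b ∈ T, a ≠ b →
    Disjoint ((fun x => a + x) '' K) ((fun x => b + x) '' K) := by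
  intro a ha b hb hab
  obtain ⟨i, rfl⟩ := mem_T.mp ha
  obtain ⟨j, rfl⟩ := mem_T.mp hb
  have hij : i ≠ j := fun h => hab (by rw [h])
  rw [Set.disjoint_left]
  intro z hz hz'
  rw [mem_translate] at hz hz'
  obtain ⟨h1, h2, h3, h4⟩ := hz
  obtain ⟨h1', h2', h3', h4'⟩ := hz'
  rcases table_disj i j hij with h | h | h | h
  · have : (cx i : ℝ) + 12 < cx j := by exact_mod_cast h
    linarith
  · have : (cx j : ℝ) + 12 < cx i := by exact_mod_cast h
    linarith
  · have : (cy i : ℝ) + 12 < cy j := by exact_mod_cast h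
    linarith
  · have : (cy j : ℝ) + 12 < cy i := by exact_mod_cast h
    linarith

open Classical in
lemma T_three : ∀ S ⊆ T, S.card ≤ 3 →
    ∃ p v : EuclideanSpace ℝ (Fin 2), v ≠ 0 ∧
      ∀ a ∈ S, ∃ s : ℝ, p + s • v ∈ (fun x => a + x) '' K := by
  intro S hST hS
  have hN : (Finset.univ.filter (fun i => pt i ∈ S)).card ≤ 3 := by
    refine le_trans (Finset.card_le_card_of_injOn pt ?_ (pt_inj.injOn)) hS
    intro i hi
    simpa using hi
  obtain ⟨l, hl⟩ := table_cover _ hN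
  refine ⟨!₂[(px l : ℝ), (py l : ℝ)], !₂[(vx l : ℝ), (vy l : ℝ)], ?_, ?_⟩
  · intro h0
    have h1 : (vx l : ℝ) = 0 := by
      have := congrArg (fun z : EuclideanSpace ℝ (Fin 2) => z 0) h0
      simpa using this
    have h2 : vx l = 0 := by exact_mod_cast h1
    revert h2
    clear h1 h0 hl
    revert l
    decide
  · intro a ha
    obtain ⟨i, rfl⟩ := mem_T.mp (hST ha)
    have hi : i ∈ hs l := hl (by simpa using ha)
    obtain ⟨h1, h2, h3, h4⟩ := table_hits l i hi
    have h1' : 2 * (cx i : ℝ) ≤ 2 * px l + sv l i * vx l := by exact_mod_cast h1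
    have h2' : 2 * (px l : ℝ) + sv l i * vx l ≤ 2 * cx i + 24 := by exact_mod_cast h2
    have h3' : 2 * (cy i : ℝ) ≤ 2 * py l + sv l i * vy l := by exact_mod_cast h3
    have h4' : 2 * (py l : ℝ) + sv l i * vy l ≤ 2 * cy i + 24 := by exact_mod_cast h4
    refine ⟨(sv l i : ℝ) / 2, ?_⟩
    rw [mem_translate]
    have e0 : (!₂[(px l : ℝ), (py l : ℝ)] + ((sv l i : ℝ) / 2) • !₂[(vx l : ℝ), (vy l : ℝ)] :
        EuclideanSpace ℝ (Fin 2)) 0 = px l + (sv l i : ℝ) / 2 * vx l := by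
      simp
    have e1 : (!₂[(px l : ℝ), (py l : ℝ)] + ((sv l i : ℝ) / 2) • !₂[(vx l : ℝ), (vy l : ℝ)] :
        EuclideanSpace ℝ (Fin 2)) 1 = py l + (sv l i : ℝ) / 2 * vy l := by
      simp
    rw [e0, e1]
    refine ⟨?_, ?_, ?_, ?_⟩ <;> linarith

/-- The negation of the preceding statement: For any compact convex planar set K and finitely many pairwise disjoint translates of K, if every at most three of them are met by a common line, then some line meets all of them except at most two. -/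
theorem result :
    ¬ (∀ (K : Set (EuclideanSpace ℝ (Fin 2))), IsCompact K → Convex ℝ K →
      ∀ (T : Finset (EuclideanSpace ℝ (Fin 2))),
        (∀ a ∈ T, ∀ b ∈ T, a ≠ b →
          Disjoint ((fun x => a + x) '' K) ((fun x => b + x) '' K)) →
        (∀ S ⊆ T, S.card ≤ 3 →
          ∃ p v : EuclideanSpace ℝ (Fin 2), v ≠ 0 ∧
            ∀ a ∈ S, ∃ s : ℝ, p + s • v ∈ (fun x => a + x) '' K) →
        ∃ p v : EuclideanSpace ℝ (Fin 2), v ≠ 0 ∧
          ∃ E ⊆ T, E.card ≤ 2 ∧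
            ∀ a ∈ T \ E, ∃ s : ℝ, p + s • v ∈ (fun x => a + x) '' K) := by
  classical
  intro H
  obtain ⟨p, v, hv, E, hET, hE, h⟩ := H K K_compact K_convex T T_disjoint T_three
  have hN : (Finset.univ.filter (fun i => pt i ∈ E)).card ≤ 2 := by
    refine le_trans (Finset.card_le_card_of_injOn pt ?_ (pt_inj.injOn)) hE
    intro i hi
    simpa using hi
  refine main_all (-(v 1)) (v 0) (-(v 1) * p 0 + v 0 * p 1) ?_ _ hN ?_
  · by_contra h0
    rw [not_or, not_not, not_not] at h0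
    apply hv
    ext k
    fin_cases k
    · simpa using h0.2
    · simpa using h0.1
  · intro i hi
    have hiE : pt i ∉ E := by simpa using hi
    obtain ⟨s, hs⟩ := h (pt i) (by
      rw [Finset.mem_sdiff]
      exact ⟨mem_T.mpr ⟨i, rfl⟩, hiE⟩)
    rw [mem_translate] at hs
    obtain ⟨h1, h2, h3, h4⟩ := hs
    refine ⟨(p + s • v) 0, (p + s • v) 1, h1, h2, h3, h4, ?_⟩
    have e0 : (p + s • v) 0 = p 0 + s * v 0 := by simp
    have e1 : (p + s • v) 1 = p 1 + s * v 1 := by simp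
    rw [e0, e1]
    ring

end Pool.Agent.S09776
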