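import Pool.Statements.S09825
import Pool.Agent.K9h64.Irregular

set_option autoImplicit false
open Classical
open Pool Pool.MP_837616_co

namespace Pool.Agent.S09825

open Pool.Agent.K9h64

/-- There is c > 0 such that for all large n, at least a c fraction of the 5-uniform hypergraphs on n labeled vertices have pairwise distinct vertex degrees. -/
theorem result :
    ∃ c : ℝ, 0 < c ∧ ∃ N : ℕ, ∀ n : ℕ, N ≤ n →
      c ≤ ((((Finset.univ : Finset (Fin n)).powersetCard 5).powerset.filter
              (fun H => Function.Injective
                (fun v : Fin n => (H.filter (fun e => v ∈ e)).card))).card : ℝ)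
            / (2 : ℝ) ^ (n.choose 5) := by
  obtain ⟨c, hc, N, hN⟩ := Irregular.main
  refine ⟨c, hc, N, fun n hn => ?_⟩
  have h := hN n hn
  have hcard : (((Switch.E n).powerset).card : ℝ) = (2 : ℝ) ^ (n.choose 5) := by
    rw [Finset.card_powerset, Switch.E, Finset.card_powersetCard, Finset.card_univ,
      Fintype.card_fin]
    push_cast
    rfl
  rw [le_div_iff₀ (by positivity), ← hcard]
  refine h.trans ?_
  norm_cast
  apply Finset.card_le_card
  intro H hH
  simp only [LLL.good, Finset.mem_filter, Finset.mem_univ, true_and] at hH ⊢
  refine ⟨hH.1, ?_⟩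
  intro u v huv
  by_contra hne
  rcases lt_or_gt_of_ne hne with hlt | hlt
  · apply hH.2 (u, v) hlt
    simp only [Switch.deg]
    convert huv using 2
  · apply hH.2 (v, u) hlt
    simp only [Switch.deg]
    convert huv.symm using 2

end Pool.Agent.S09825
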